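import Pool.Agent.H8.AV3.Stmts

/-!
# ACT: the automorphism groups act on the spaces of sections
-/

set_option autoImplicit false

namespace Pool.Agent.H34.AV3

open Polynomial Matrix Pool.AV3

variable {F : Type} [Field F]

/-- Degree bound. -/
def B (p : F[X]) (z : ℤ) : Prop := p ≠ 0 → (p.natDegree : ℤ) ≤ z

theorem B.add {p q : F[X]} {z : ℤ} (hp : B p z) (hq : B q z) : B (p + q) z := by
  intro h
  by_cases h1 : p = 0
  · subst h1
    rw [zero_add] at h ⊢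
    exact hq h
  by_cases h2 : q = 0
  · subst h2
    rw [add_zero] at h ⊢
    exact hp h
  have := Polynomial.natDegree_add_le p q
  have a := hp h1
  have b := hq h2
  have c : ((p + q).natDegree : ℤ) ≤ max (p.natDegree : ℤ) q.natDegree := by
    exact_mod_cast this
  exact c.trans (max_le a b)

theorem B.mul {p q : F[X]} {z w : ℤ} (hp : B p z) (hq : B q w) : B (p * q) (z + w) := by
  intro h
  have h1 : p ≠ 0 := left_ne_zero_of_mul h
  have h2 : q ≠ 0 := right_ne_zero_of_mul h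
  rw [Polynomial.natDegree_mul h1 h2]
  push_cast
  exact add_le_add (hp h1) (hq h2)

theorem B.const {a : F[X]} (ha : a.natDegree = 0) : B a 0 := by
  intro _
  rw [ha]
  norm_num

theorem B.cmul {a p : F[X]} {z : ℤ} (ha : a.natDegree = 0) (hp : B p z) : B (a * p) z := by
  have := (B.const ha).mul hp
  rwa [zero_add] at this

theorem B.two {p : F[X]} {z : ℤ} (hp : B p z) : B (2 * p) z :=
  B.cmul (Polynomial.natDegree_ofNat 2) hp

theorem B.three {p : F[X]} {z : ℤ} (hp : B p z) : B (3 * p) z :=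
  B.cmul (Polynomial.natDegree_ofNat 3) hp

theorem B.six {p : F[X]} {z : ℤ} (hp : B p z) : B (6 * p) z :=
  B.cmul (Polynomial.natDegree_ofNat 6) hp

theorem mon {c u v w : F[X]} {n a b e x y z S : ℤ} (hc : B c (n + (a + b + e) - S))
    (hu : B u (x - a)) (hv : B v (y - b)) (hw : B w (z - e)) :
    B (c * (u * v * w)) (n + (x + y + z) - S) := by
  have := hc.mul ((hu.mul hv).mul hw)
  have e1 : n + (a + b + e) - S + (x - a + (y - b) + (z - e)) = n + (x + y + z) - S := by ring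
  rwa [e1] at this

variable {n : ℤ} {S : ℤ} {d : Fin 3 → ℤ} {c : Fin 10 → F[X]}

/-- The degree conditions on the coefficients. -/
structure HC (n S : ℤ) (d : Fin 3 → ℤ) (c : Fin 10 → F[X]) : Prop where
  h0 : B (c 0) (n + (d 0 + d 0 + d 0) - S)
  h1 : B (c 1) (n + (d 0 + d 0 + d 1) - S)
  h2 : B (c 2) (n + (d 0 + d 0 + d 2) - S)
  h3 : B (c 3) (n + (d 0 + d 1 + d 1) - S)
  h4 : B (c 4) (n + (d 0 + d 1 + d 2) - S)
  h5 : B (c 5) (n + (d 0 + d 2 + d 2) - S)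
  h6 : B (c 6) (n + (d 1 + d 1 + d 1) - S)
  h7 : B (c 7) (n + (d 1 + d 1 + d 2) - S)
  h8 : B (c 8) (n + (d 1 + d 2 + d 2) - S)
  h9 : B (c 9) (n + (d 2 + d 2 + d 2) - S)

theorem tev_B (hc : HC n S d c) {v : Fin 3 → F[X]} {e : ℤ} (hv : ∀ i, B (v i) (e - d i)) :
    B (tev c v) (n + (e + e + e) - S) := by
  have key : tev c v = c 0 * (v 0 * v 0 * v 0) + c 1 * (v 0 * v 0 * v 1) +
      c 2 * (v 0 * v 0 * v 2) + c 3 * (v 0 * v 1 * v 1) + c 4 * (v 0 * v 1 * v 2) +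
      c 5 * (v 0 * v 2 * v 2) + c 6 * (v 1 * v 1 * v 1) + c 7 * (v 1 * v 1 * v 2) +
      c 8 * (v 1 * v 2 * v 2) + c 9 * (v 2 * v 2 * v 2) := by
    simp only [tev]
    ring
  rw [key]
  exact (((((((((mon hc.h0 (hv 0) (hv 0) (hv 0)).add (mon hc.h1 (hv 0) (hv 0) (hv 1))).add
    (mon hc.h2 (hv 0) (hv 0) (hv 2))).add (mon hc.h3 (hv 0) (hv 1) (hv 1))).add
    (mon hc.h4 (hv 0) (hv 1) (hv 2))).add (mon hc.h5 (hv 0) (hv 2) (hv 2))).add
    (mon hc.h6 (hv 1) (hv 1) (hv 1))).add (mon hc.h7 (hv 1) (hv 1) (hv 2))).add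
    (mon hc.h8 (hv 1) (hv 2) (hv 2))).add (mon hc.h9 (hv 2) (hv 2) (hv 2))

/-- Permuting the order of the exponents of a coefficient. -/
theorem HCp {p : F[X]} {z w : ℤ} (h : B p z) (e : z = w) : B p w := e ▸ h

theorem mon' {c u v w : F[X]} {n a b e x y z S t m : ℤ} (hc : B c t) (ht : t = n + (a + b + e) - S)
    (hu : B u (x - a)) (hv : B v (y - b)) (hw : B w (z - e)) (hm : n + (x + y + z) - S = m) :
    B (c * (u * v * w)) m := by
  rw [← hm]
  exact mon (HCp hc ht) hu hv hw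

theorem tder_B (hc : HC n S d c) {v w : Fin 3 → F[X]} {e f : ℤ} (hv : ∀ i, B (v i) (e - d i))
    (hw : ∀ i, B (w i) (f - d i)) : B (tder c v w) (n + (e + e + f) - S) := by
  have key : tder c v w = 3 * (c 0 * (v 0 * v 0 * w 0)) +
      (2 * (c 1 * (v 0 * v 1 * w 0)) + c 1 * (v 0 * v 0 * w 1)) +
      (2 * (c 2 * (v 0 * v 2 * w 0)) + c 2 * (v 0 * v 0 * w 2)) +
      (c 3 * (v 1 * v 1 * w 0) + 2 * (c 3 * (v 0 * v 1 * w 1))) +
      (c 4 * (v 1 * v 2 * w 0) + c 4 * (v 0 * v 2 * w 1) + c 4 * (v 0 * v 1 * w 2)) +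
      (c 5 * (v 2 * v 2 * w 0) + 2 * (c 5 * (v 0 * v 2 * w 2))) +
      3 * (c 6 * (v 1 * v 1 * w 1)) +
      (2 * (c 7 * (v 1 * v 2 * w 1)) + c 7 * (v 1 * v 1 * w 2)) +
      (c 8 * (v 2 * v 2 * w 1) + 2 * (c 8 * (v 1 * v 2 * w 2))) +
      3 * (c 9 * (v 2 * v 2 * w 2)) := by
    simp only [tder]
    ring
  rw [key]
  have M : ∀ {i : Fin 10} {t : ℤ}, B (c i) t → ∀ a b g : Fin 3,
      t = n + (d a + d b + d g) - S → B (c i * (v a * v b * w g)) (n + (e + e + f) - S) :=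
    fun h a b g ht => mon' h ht (hv a) (hv b) (hw g) rfl
  refine B.add (B.add (B.add (B.add (B.add (B.add (B.add (B.add (B.add ?_ ?_) ?_) ?_) ?_) ?_)
    ?_) ?_) ?_) ?_
  · exact (M hc.h0 0 0 0 (by ring)).three
  · exact (M hc.h1 0 1 0 (by ring)).two.add (M hc.h1 0 0 1 (by ring))
  · exact (M hc.h2 0 2 0 (by ring)).two.add (M hc.h2 0 0 2 (by ring))
  · exact (M hc.h3 1 1 0 (by ring)).add (M hc.h3 0 1 1 (by ring)).two
  · exact ((M hc.h4 1 2 0 (by ring)).add (M hc.h4 0 2 1 (by ring))).add (M hc.h4 0 1 2 (by ring))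
  · exact (M hc.h5 2 2 0 (by ring)).add (M hc.h5 0 2 2 (by ring)).two
  · exact (M hc.h6 1 1 1 (by ring)).three
  · exact (M hc.h7 1 2 1 (by ring)).two.add (M hc.h7 1 1 2 (by ring))
  · exact (M hc.h8 2 2 1 (by ring)).add (M hc.h8 1 2 2 (by ring)).two
  · exact (M hc.h9 2 2 2 (by ring)).three

theorem tri_B (hc : HC n S d c) {u v w : Fin 3 → F[X]} {x e f : ℤ}
    (hu : ∀ i, B (u i) (x - d i)) (hv : ∀ i, B (v i) (e - d i))
    (hw : ∀ i, B (w i) (f - d i)) :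
    B (tder c (fun i => u i + v i) w - tder c u w - tder c v w) (n + (x + e + f) - S) := by
  have key : tder c (fun i => u i + v i) w - tder c u w - tder c v w =
      6 * (c 0 * (u 0 * v 0 * w 0)) +
      (2 * (c 1 * (u 0 * v 1 * w 0)) + 2 * (c 1 * (u 1 * v 0 * w 0)) +
        2 * (c 1 * (u 0 * v 0 * w 1))) +
      (2 * (c 2 * (u 0 * v 2 * w 0)) + 2 * (c 2 * (u 2 * v 0 * w 0)) +
        2 * (c 2 * (u 0 * v 0 * w 2))) +
      (2 * (c 3 * (u 1 * v 1 * w 0)) + 2 * (c 3 * (u 0 * v 1 * w 1)) +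
        2 * (c 3 * (u 1 * v 0 * w 1))) +
      (c 4 * (u 1 * v 2 * w 0) + c 4 * (u 2 * v 1 * w 0) + c 4 * (u 0 * v 2 * w 1) +
        c 4 * (u 2 * v 0 * w 1) + c 4 * (u 0 * v 1 * w 2) + c 4 * (u 1 * v 0 * w 2)) +
      (2 * (c 5 * (u 2 * v 2 * w 0)) + 2 * (c 5 * (u 0 * v 2 * w 2)) +
        2 * (c 5 * (u 2 * v 0 * w 2))) +
      6 * (c 6 * (u 1 * v 1 * w 1)) +
      (2 * (c 7 * (u 1 * v 2 * w 1)) + 2 * (c 7 * (u 2 * v 1 * w 1)) +
        2 * (c 7 * (u 1 * v 1 * w 2))) +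
      (2 * (c 8 * (u 2 * v 2 * w 1)) + 2 * (c 8 * (u 1 * v 2 * w 2)) +
        2 * (c 8 * (u 2 * v 1 * w 2))) +
      6 * (c 9 * (u 2 * v 2 * w 2)) := by
    simp only [tder]
    ring
  rw [key]
  have M : ∀ {i : Fin 10} {t : ℤ}, B (c i) t → ∀ a b g : Fin 3,
      t = n + (d a + d b + d g) - S → B (c i * (u a * v b * w g)) (n + (x + e + f) - S) :=
    fun h a b g ht => mon' h ht (hu a) (hv b) (hw g) rfl
  refine B.add (B.add (B.add (B.add (B.add (B.add (B.add (B.add (B.add ?_ ?_) ?_) ?_) ?_) ?_)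
    ?_) ?_) ?_) ?_
  · exact (M hc.h0 0 0 0 (by ring)).six
  · exact ((M hc.h1 0 1 0 (by ring)).two.add (M hc.h1 1 0 0 (by ring)).two).add
      (M hc.h1 0 0 1 (by ring)).two
  · exact ((M hc.h2 0 2 0 (by ring)).two.add (M hc.h2 2 0 0 (by ring)).two).add
      (M hc.h2 0 0 2 (by ring)).two
  · exact ((M hc.h3 1 1 0 (by ring)).two.add (M hc.h3 0 1 1 (by ring)).two).add
      (M hc.h3 1 0 1 (by ring)).two
  · exact (((((M hc.h4 1 2 0 (by ring)).add (M hc.h4 2 1 0 (by ring))).add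
      (M hc.h4 0 2 1 (by ring))).add (M hc.h4 2 0 1 (by ring))).add
      (M hc.h4 0 1 2 (by ring))).add (M hc.h4 1 0 2 (by ring))
  · exact ((M hc.h5 2 2 0 (by ring)).two.add (M hc.h5 0 2 2 (by ring)).two).add
      (M hc.h5 2 0 2 (by ring)).two
  · exact (M hc.h6 1 1 1 (by ring)).six
  · exact ((M hc.h7 1 2 1 (by ring)).two.add (M hc.h7 2 1 1 (by ring)).two).add
      (M hc.h7 1 1 2 (by ring)).two
  · exact ((M hc.h8 2 2 1 (by ring)).two.add (M hc.h8 1 2 2 (by ring)).two).add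
      (M hc.h8 2 1 2 (by ring)).two
  · exact (M hc.h9 2 2 2 (by ring)).six

theorem ACT_thm : ACTStmt := by
  intro F _ n d c g hc hg
  have H : HC (n : ℤ) (∑ j, d j) d c := by
    have h := hc
    simp only [Vd, Set.mem_ofPred_eq] at h
    refine ⟨?_, ?_, ?_, ?_, ?_, ?_, ?_, ?_, ?_, ?_⟩
    · simpa [B, tr, Fin.sum_univ_three] using h 0
    · simpa [B, tr, Fin.sum_univ_three] using h 1
    · simpa [B, tr, Fin.sum_univ_three] using h 2
    · simpa [B, tr, Fin.sum_univ_three] using h 3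
    · simpa [B, tr, Fin.sum_univ_three] using h 4
    · simpa [B, tr, Fin.sum_univ_three] using h 5
    · simpa [B, tr, Fin.sum_univ_three] using h 6
    · simpa [B, tr, Fin.sum_univ_three] using h 7
    · simpa [B, tr, Fin.sum_univ_three] using h 8
    · simpa [B, tr, Fin.sum_univ_three] using h 9
  have G : ∀ j, ∀ i, B (g i j) (d j - d i) := fun j i => hg.2 i j
  obtain ⟨u, hu⟩ := hg.1
  have hT : ∀ i, B (tsub c g i) (n + ∑ s, d (tr i s) - ∑ j, d j) := by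
    intro i
    fin_cases i
    · simpa [tsub, tr, Fin.sum_univ_three] using tev_B H (G 0)
    · simpa [tsub, tr, Fin.sum_univ_three] using tder_B H (G 0) (G 1)
    · simpa [tsub, tr, Fin.sum_univ_three] using tder_B H (G 0) (G 2)
    · have := tder_B H (G 1) (G 0)
      refine HCp (by simpa [tsub] using this) ?_
      simp [tr, Fin.sum_univ_three]
      ring
    · simpa [tsub, tr, Fin.sum_univ_three] using tri_B H (G 0) (G 1) (G 2)
    · have := tder_B H (G 2) (G 0)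
      refine HCp (by simpa [tsub] using this) ?_
      simp [tr, Fin.sum_univ_three]
      ring
    · simpa [tsub, tr, Fin.sum_univ_three] using tev_B H (G 1)
    · simpa [tsub, tr, Fin.sum_univ_three] using tder_B H (G 1) (G 2)
    · have := tder_B H (G 2) (G 1)
      refine HCp (by simpa [tsub] using this) ?_
      simp [tr, Fin.sum_univ_three]
      ring
    · simpa [tsub, tr, Fin.sum_univ_three] using tev_B H (G 2)
  refine ⟨((u⁻¹ : F[X]ˣ) : F[X]) • tsub c g, ?_, hg.1, ?_⟩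
  · intro i hi
    have hd : (((u⁻¹ : F[X]ˣ) : F[X])).natDegree = 0 :=
      Polynomial.natDegree_eq_zero_of_isUnit (Units.isUnit _)
    exact B.cmul hd (hT i) hi
  · rw [smul_smul, ← hu, Units.mul_inv, one_smul]

end Pool.Agent.H34.AV3
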