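import Pool.Agent.H8.AV3.Stmts

/-!
# CNV: the number of cubic forms with bounded degrees
-/

set_option autoImplicit false

namespace Pool.Agent.H34.AV3

open Polynomial Matrix Pool.AV3

/-- The number of free coefficients of the entry `i`. -/
def kk (n α β : ℕ) (i : Fin 10) : ℕ :=
  ((n : ℤ) + ∑ s, dv α β (tr i s) - ∑ j, dv α β j + 1).toNat

theorem sum_kk {n α β : ℕ} (hα : α ≤ n) (hβ : β ≤ n) : ∑ i, kk n α β i =
    10 * n + 10 + (2 * α + β - (n + 1)) + (α + β - (n + 1)) := by
  simp only [kk, Fin.sum_univ_succ, tr, dv, Fin.sum_univ_zero]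
  simp
  omega

theorem CNV_thm : CNVStmt := by
  intro F _ _ n α β hα hβ
  let e : (Vd n (dv α β) : Set (Fin 10 → F[X])) → ((i : Fin 10) → (Fin (kk n α β i) → F)) :=
    fun c i j => (c.1 i).coeff j
  have he : Function.Injective e := by
    intro c c' h
    apply Subtype.ext
    funext i
    ext j
    by_cases hj : j < kk n α β i
    · exact congrFun (congrFun h i) ⟨j, hj⟩
    · have key : ∀ c : Fin 10 → F[X], c ∈ Vd n (dv α β) → (c i).coeff j = 0 := by
        intro c hc
        by_cases h0 : c i = 0
        · rw [h0, Polynomial.coeff_zero]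
        · have h1 := hc i h0
          apply Polynomial.coeff_eq_zero_of_natDegree_lt
          simp only [kk] at hj
          omega
      rw [key c.1 c.2, key c'.1 c'.2]
  have : Finite (Vd n (dv α β) : Set (Fin 10 → F[X])) := Finite.of_injective e he
  refine ⟨Set.toFinite _, ?_⟩
  rw [← Nat.card_coe_set_eq]
  refine (Nat.card_le_card_of_injective e he).trans ?_
  rw [Nat.card_pi]
  simp only [Nat.card_fun, Nat.card_fin]
  rw [Finset.prod_pow_eq_pow_sum, sum_kk hα hβ]

end Pool.Agent.H34.AV3
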